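import Pool.Agent.Run7.h710.Main

set_option autoImplicit false

/-!
# No admissible algebra inside the division rings of fractions of `k[x₁, …, x_d][t, t⁻¹; σ]`

Over a field of positive characteristic that contains an element `q` which is not a root of unity,
the known admissible algebra is the quantum torus, which lies between `k[x][t, t⁻¹; σ]`,
`σ x = q x`, and its division ring of fractions.  Here we show that over the remaining fields, those
which are algebraic over the prime field, this source gives nothing, for polynomial rings in any
number of variables and for arbitrary (also wild) automorphisms.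
-/

namespace Pool.Agent.Results.MP_16d7ed_al.PolynomialSkewFractions

open Run7.h710

/-- Let `k` be an algebraic extension of the prime field with `p` elements, `σ` any automorphism of
the polynomial algebra `k[x₁, …, x_d]`, and `D` the division ring of left fractions of the skew
Laurent polynomial ring `k[x₁, …, x_d][t, t⁻¹; σ]`.  Every finitely presented simple `k`-algebra
with a (unital) homomorphism to a ring of matrices over `D` is finite dimensional.

In particular no admissible `k`-algebra embeds in a matrix ring over `D`. -/
theorem result (p : ℕ) [Fact p.Prime] (k : Type) [Field k] [CharP k p]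
    [Algebra (ZMod p) k] [Algebra.IsAlgebraic (ZMod p) k] (d : ℕ)
    (σ : MvPolynomial (Fin d) k ≃ₐ[k] MvPolynomial (Fin d) k)
    (D : Type) [DivisionRing D] [Algebra k D] (E : SkewLaurentFractions k σ D)
    (m : ℕ) (hm : 0 < m) (R : Type) [Ring R] [Algebra k R] [IsSimpleRing R]
    (hfp : ∃ (n : ℕ) (f : FreeAlgebra k (Fin n) →ₐ[k] R), Function.Surjective f ∧
      ∃ S : Finset (FreeAlgebra k (Fin n)),
        ∀ x, f x = 0 ↔ x ∈ TwoSidedIdeal.span (S : Set (FreeAlgebra k (Fin n))))
    (h : R →ₐ[k] Matrix (Fin m) (Fin m) D) : Module.Finite k R := by
  obtain ⟨n, f, hf, S, hS⟩ := hfp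
  exact main p k d σ D E m hm R n f hf S hS h

end Pool.Agent.Results.MP_16d7ed_al.PolynomialSkewFractions
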